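import Pool.Agent.Work.MP_959bfa_wn.Interface

namespace Wn

open Finset

/-- key step of the sweep: an active block whose member `w` has height between the heights of
`i` and of a member `j0` of the block of `i` is the block of `i` -/
theorem h81_key {n : ℕ} {P : Fin n → ℝ × ℝ} (hs : Srt P) {E : Finset (Fin n)} {f : Fin n → ℕ}
    {Q : ℕ → Bx} (hd : ∀ a b, a ≠ b → Dj (Q a) (Q b))
    (hin : ∀ i ∈ E, In (Q (f i)) (P i).1 (P i).2) {i w j0 : Fin n} (hi : i ∈ E) (hw : w ∈ E)
    (hj0 : j0 ∈ E) (hwi : w < i) (hact : ∀ j ∈ E, j < i → f j = f w → ¬ Lst E f j)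
    (hf : f j0 = f i)
    (hy : ((P j0).2 ≤ (P w).2 ∧ (P w).2 ≤ (P i).2) ∨ ((P i).2 ≤ (P w).2 ∧ (P w).2 ≤ (P j0).2)) :
    f w = f i := by
  classical
  by_contra hne
  -- last element of the block of w
  have hne' : (E.filter (fun j => f j = f w)).Nonempty := ⟨w, by simp [hw]⟩
  obtain ⟨e, he, hmax⟩ := (E.filter (fun j => f j = f w)).exists_max_image (fun j => j) hne'
  rw [mem_filter] at he
  have hlst : Lst E f e := by
    intro j hj hej hfj
    have := hmax j (by rw [mem_filter]; exact ⟨hj, hfj.trans he.2⟩)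
    exact absurd hej (not_lt.2 this)
  have hie : i < e := by
    rcases lt_trichotomy i e with h | h | h
    · exact h
    · exfalso; apply hne; rw [h, he.2]
    · exact absurd hlst (hact e he.1 h he.2)
  have h1 := hin w hw
  have h2 := hin e he.1
  rw [he.2] at h2
  have h3 := hin i hi
  have h4 := hin j0 hj0
  rw [hf] at h4
  have x1 : (P w).1 ≤ (P i).1 := hs (le_of_lt hwi)
  have x2 : (P i).1 ≤ (P e).1 := hs (le_of_lt hie)
  obtain ⟨a1, a2, a3, a4⟩ := h1
  obtain ⟨b1, b2, b3, b4⟩ := h2
  obtain ⟨c1, c2, c3, c4⟩ := h3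
  obtain ⟨d1, d2, d3, d4⟩ := h4
  apply hd (f w) (f i) hne (P i).1 (P w).2
  refine ⟨⟨by linarith, by linarith, a3, a4⟩, ⟨c1, c2, ?_, ?_⟩⟩
  · rcases hy with h | h <;> linarith [h.1, h.2]
  · rcases hy with h | h <;> linarith [h.1, h.2]

/-- SWP: the three bits per point determine the partition. -/
theorem SWP : stmt_SWP := by
  classical
  intro n P hs E f g Q Q' hd hd' hin hin' hbits
  have main : ∀ N : ℕ, ∀ i ∈ E, (i : ℕ) = N → ∀ j ∈ E, j < i → (f j = f i ↔ g j = g i) := by
    intro N
    induction N using Nat.strong_induction_on with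
    | _ N ih =>
      intro i hi hiN
      -- the relations agree below `i`
      have hrel : ∀ a ∈ E, ∀ b ∈ E, a < i → b < i → (f a = f b ↔ g a = g b) := by
        intro a ha b hb hai hbi
        rcases lt_trichotomy a b with h | h | h
        · exact ih b (by rw [← hiN]; exact hbi) b hb rfl a ha h
        · subst h; simp
        · have := ih a (by rw [← hiN]; exact hai) a ha rfl b hb h
          exact ⟨fun e => (this.1 e.symm).symm, fun e => (this.2 e.symm).symm⟩
      have hbi := hbits i hi
      by_cases hF : Fst E f i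
      · have hG := hbi.1.1 hF
        intro j hj hji
        exact ⟨fun e => absurd e (hF j hj hji), fun e => absurd e (hG j hj hji)⟩
      have hG : ¬ Fst E g i := fun h => hF (hbi.1.2 h)
      -- activity
      have hactiff : ∀ w ∈ E, w < i → ((∀ j ∈ E, j < i → f j = f w → ¬ Lst E f j) ↔
          (∀ j ∈ E, j < i → g j = g w → ¬ Lst E g j)) := by
        intro w hw hwi
        constructor
        · intro h j hj hji hg hl
          exact h j hj hji ((hrel j hj w hw hji hwi).2 hg) ((hbits j hj).2.1.2 hl)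
        · intro h j hj hji hg hl
          exact h j hj hji ((hrel j hj w hw hji hwi).1 hg) ((hbits j hj).2.1.1 hl)
      have hactf : ∀ j0 ∈ E, f j0 = f i → ∀ j ∈ E, j < i → f j = f j0 → ¬ Lst E f j := by
        intro j0 hj0 hf j hj hji hfj hl
        exact hl i hi hji (by rw [hfj, hf])
      have hactg : ∀ j0 ∈ E, g j0 = g i → ∀ j ∈ E, j < i → g j = g j0 → ¬ Lst E g j := by
        intro j0 hj0 hf j hj hji hfj hl
        exact hl i hi hji (by rw [hfj, hf])
      -- it is enough to find a common `w`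
      have fin : ∀ w ∈ E, w < i → f w = f i → g w = g i →
          ∀ j ∈ E, j < i → (f j = f i ↔ g j = g i) := by
        intro w hw hwi h1 h2 j hj hji
        rw [← h1, ← h2]
        exact hrel j hj w hw hji hwi
      by_cases hB : Bt P E f i
      · have hB' := hbi.2.2.1 hB
        obtain ⟨j0, hj0, hji0, hf0, hy0⟩ := hB
        obtain ⟨j1, hj1, hji1, hg1, hy1⟩ := hB'
        set W := E.filter (fun w => w < i ∧ (∀ j ∈ E, j < i → f j = f w → ¬ Lst E f j) ∧
          (P w).2 ≤ (P i).2) with hW
        have hj0W : j0 ∈ W := by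
          rw [hW, mem_filter]
          exact ⟨hj0, hji0, hactf j0 hj0 hf0, hy0⟩
        have hj1W : j1 ∈ W := by
          rw [hW, mem_filter]
          exact ⟨hj1, hji1, (hactiff j1 hj1 hji1).2 (hactg j1 hj1 hg1), hy1⟩
        obtain ⟨w, hw, hwmax⟩ := W.exists_max_image (fun w => (P w).2) ⟨j0, hj0W⟩
        have hw' := hw
        rw [hW, mem_filter] at hw'
        obtain ⟨hwE, hwi, hwa, hwy⟩ := hw'
        apply fin w hwE hwi
        · exact h81_key hs hd hin hi hwE hj0 hwi hwa hf0 (Or.inl ⟨hwmax j0 hj0W, hwy⟩)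
        · exact h81_key hs hd' hin' hi hwE hj1 hwi ((hactiff w hwE hwi).1 hwa) hg1
            (Or.inl ⟨hwmax j1 hj1W, hwy⟩)
      · have hB' : ¬ Bt P E g i := fun h => hB (hbi.2.2.2 h)
        have hex : ∃ j0 ∈ E, j0 < i ∧ f j0 = f i := by
          by_contra hcon
          apply hF
          intro j hj hji hfj
          exact hcon ⟨j, hj, hji, hfj⟩
        have hex' : ∃ j0 ∈ E, j0 < i ∧ g j0 = g i := by
          by_contra hcon
          apply hG
          intro j hj hji hfj
          exact hcon ⟨j, hj, hji, hfj⟩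
        obtain ⟨j0, hj0, hji0, hf0⟩ := hex
        obtain ⟨j1, hj1, hji1, hg1⟩ := hex'
        have hy0 : (P i).2 < (P j0).2 := by
          by_contra hcon
          exact hB ⟨j0, hj0, hji0, hf0, not_lt.1 hcon⟩
        have hy1 : (P i).2 < (P j1).2 := by
          by_contra hcon
          exact hB' ⟨j1, hj1, hji1, hg1, not_lt.1 hcon⟩
        set W := E.filter (fun w => w < i ∧ (∀ j ∈ E, j < i → f j = f w → ¬ Lst E f j) ∧
          (P i).2 < (P w).2) with hW
        have hj0W : j0 ∈ W := by
          rw [hW, mem_filter]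
          exact ⟨hj0, hji0, hactf j0 hj0 hf0, hy0⟩
        have hj1W : j1 ∈ W := by
          rw [hW, mem_filter]
          exact ⟨hj1, hji1, (hactiff j1 hj1 hji1).2 (hactg j1 hj1 hg1), hy1⟩
        obtain ⟨w, hw, hwmin⟩ := W.exists_min_image (fun w => (P w).2) ⟨j0, hj0W⟩
        have hw' := hw
        rw [hW, mem_filter] at hw'
        obtain ⟨hwE, hwi, hwa, hwy⟩ := hw'
        apply fin w hwE hwi
        · exact h81_key hs hd hin hi hwE hj0 hwi hwa hf0 (Or.inr ⟨hwy.le, hwmin j0 hj0W⟩)
        · exact h81_key hs hd' hin' hi hwE hj1 hwi ((hactiff w hwE hwi).1 hwa) hg1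
            (Or.inr ⟨hwy.le, hwmin j1 hj1W⟩)
  intro i hi j hj
  rcases lt_trichotomy i j with h | h | h
  · exact main j j hj rfl i hi h
  · subst h; simp
  · have := main i i hi rfl j hj h
    exact ⟨fun e => (this.1 e.symm).symm, fun e => (this.2 e.symm).symm⟩

end Wn
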