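import Pool.Agent.Work.MP_959bfa_wn_helper81.GRP

namespace Wn

open Finset

theorem h81_Nb_symm {ι : Type} {R : ι → Bx} {i j : ι} (h : Nb R i j) : Nb R j i := by
  obtain ⟨h1, h2, h3, h4⟩ := h
  refine ⟨h1.symm, fun hd => h2 (fun x y hxy => hd x y ⟨hxy.2, hxy.1⟩), h4, h3⟩

/-- CRC: number of crossing pairs in blocks of `eta` (slack larger than `s'`). -/
theorem CRC (hC : stmt_COM) : stmt_CRC := by
  classical
  intro ι R J w s' σ hne hdeg hσ hσs
  set A := fl (J ×ˢ J) (fun p => Cr R p.1 p.2 ∧ ¬ Sm R J s' p.2 ∧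
      eta R J p.1 / σ = eta R J p.2 / σ) with hA
  -- common neighbours
  have hcom : ∀ p ∈ A, σ ≤ (fl J (fun k => Nb R p.1 k ∧ Nb R p.2 k)).card := by
    intro p hp
    rw [hA, mem_fl, mem_product] at hp
    obtain ⟨⟨hi, hj⟩, hcr, hsm, hq⟩ := hp
    have hni := hne _ hi
    have hnj := hne _ hj
    -- least m
    have hex : ∃ m, PV R J m p.2 := ⟨J.card, h81_PV_card hnj⟩
    have hm1 := Nat.find_spec hex
    set m := Nat.find hex with hm
    have hq2 : ¬ QH R J (m - s') p.2 := fun h => hsm ⟨m, hm1, h⟩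
    have he : eta R J p.2 < m - s' := by
      by_contra hcon
      exact hq2 (h81_QH_anti (not_lt.1 hcon) (h81_eta_spec hnj))
    have hnpv : ¬ PV R J (m - 1) p.2 := Nat.find_min hex (by omega)
    have hnq : ¬ QH R J (eta R J p.1 + 1) p.1 := by
      intro h
      have := h81_le_eta h
      omega
    have key := hC ι R J (m - 1) (eta R J p.1) p.1 p.2 hi hj hni hnj hcr hnpv hnq
    refine le_trans ?_ key
    have a1 : eta R J p.1 < (eta R J p.1 / σ + 1) * σ := by
      have := Nat.lt_mul_div_succ (eta R J p.1) (show 0 < σ by omega)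
      nlinarith
    have a2 : eta R J p.2 / σ * σ ≤ eta R J p.2 := Nat.div_mul_le_self _ _
    rw [hq] at a1
    have a3 : (eta R J p.2 / σ + 1) * σ = eta R J p.2 / σ * σ + σ := by ring
    rw [a3] at a1
    omega
  -- double counting
  have h1 : A.card * σ ≤ ∑ p ∈ A, (J.filter (fun k => Nb R p.1 k ∧ Nb R p.2 k)).card := by
    rw [← smul_eq_mul, ← sum_const]
    apply sum_le_sum
    intro p hp
    refine (hcom p hp).trans (card_le_card ?_)
    intro k hk
    rw [mem_fl] at hk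
    rw [mem_filter]
    exact hk
  have h2 : ∑ p ∈ A, (J.filter (fun k => Nb R p.1 k ∧ Nb R p.2 k)).card =
      ∑ k ∈ J, (A.filter (fun p => Nb R p.1 k ∧ Nb R p.2 k)).card :=
    sum_card_bipartiteAbove_eq_sum_card_bipartiteBelow
      (fun (p : ι × ι) (k : ι) => Nb R p.1 k ∧ Nb R p.2 k)
  have h3 : ∑ k ∈ J, (A.filter (fun p => Nb R p.1 k ∧ Nb R p.2 k)).card ≤
      ∑ k ∈ J, (16 * w) ^ 2 := by
    apply sum_le_sum
    intro k hk
    have hsub : A.filter (fun p => Nb R p.1 k ∧ Nb R p.2 k) ⊆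
        (fl J (fun j => Nb R k j)) ×ˢ (fl J (fun j => Nb R k j)) := by
      intro p hp
      rw [mem_filter, hA, mem_fl, mem_product] at hp
      rw [mem_product, mem_fl, mem_fl]
      exact ⟨⟨hp.1.1.1, h81_Nb_symm hp.2.1⟩, ⟨hp.1.1.2, h81_Nb_symm hp.2.2⟩⟩
    refine (card_le_card hsub).trans ?_
    rw [card_product, sq]
    exact Nat.mul_le_mul (hdeg k hk) (hdeg k hk)
  rw [sum_const, smul_eq_mul] at h3
  calc A.card * σ ≤ _ := h1
    _ = _ := h2
    _ ≤ _ := h3

end Wn
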