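import Pool.Agent.Work.MP_959bfa_wn.Interface2

namespace Wn

open Finset

theorem h81_PV_mono {ι : Type} {R : ι → Bx} {J : Finset ι} {m m' : ℕ} {i : ι} (h : m ≤ m')
    (hp : PV R J m i) : PV R J m' i := by
  obtain ⟨x, h1, h2, h3⟩ := hp
  exact ⟨x, h1, h2, fun y a b => (h3 y a b).trans h⟩

theorem h81_QH_anti {ι : Type} {R : ι → Bx} {J : Finset ι} {h h' : ℕ} {i : ι} (hh : h' ≤ h)
    (hq : QH R J h i) : QH R J h' i := by
  obtain ⟨y, h1, h2, h3⟩ := hq
  exact ⟨y, h1, h2, hh.trans h3⟩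

theorem h81_QH_le {ι : Type} {R : ι → Bx} {J : Finset ι} {h : ℕ} {i : ι}
    (hq : QH R J h i) : h ≤ J.card := by
  obtain ⟨y, h1, h2, h3⟩ := hq
  exact h3.trans (card_le_card (fl_subset _ _))

theorem h81_QH_zero {ι : Type} {R : ι → Bx} {J : Finset ι} {i : ι} (hn : Ne (R i)) :
    QH R J 0 i := ⟨(R i).b, le_refl _, hn.2, Nat.zero_le _⟩

theorem h81_PV_card {ι : Type} {R : ι → Bx} {J : Finset ι} {i : ι} (hn : Ne (R i)) :
    PV R J J.card i :=
  ⟨(R i).l, le_refl _, hn.1, fun _ _ _ => card_le_card (fl_subset _ _)⟩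

theorem h81_eta_spec {ι : Type} {R : ι → Bx} {J : Finset ι} {i : ι} (hn : Ne (R i)) :
    QH R J (eta R J i) i := by
  classical
  unfold eta
  exact Nat.findGreatest_spec (P := fun h => QH R J h i) (Nat.zero_le _) (h81_QH_zero hn)

theorem h81_le_eta {ι : Type} {R : ι → Bx} {J : Finset ι} {h : ℕ} {i : ι}
    (hq : QH R J h i) : h ≤ eta R J i := by
  classical
  unfold eta
  exact Nat.le_findGreatest (P := fun h => QH R J h i) (h81_QH_le hq) hq

/-- GRP: the members of slack at most `s` in one block of `eta` have depth at most `8 s`. -/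
theorem GRP (hL : stmt_LEM1) : stmt_GRP := by
  intro ι R J s σ u hne hσ hσs x y
  have key := hL ι R J ((u + 1) * σ - 1 + s) (u * σ) hne x y
  have hsub : fl (fl J (fun i => Sm R J s i ∧ eta R J i / σ = u)) (fun j => In (R j) x y) ⊆
      fl J (fun i => PV R J ((u + 1) * σ - 1 + s) i ∧ QH R J (u * σ) i ∧ In (R i) x y) := by
    intro i hi
    rw [mem_fl, mem_fl] at hi
    obtain ⟨⟨hiJ, ⟨m, hm1, hm2⟩, hu⟩, hin⟩ := hi
    have hn := hne i hiJ
    have e1 : m - s ≤ eta R J i := h81_le_eta hm2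
    have e2 : eta R J i < (u + 1) * σ := by
      rw [← hu]
      have := Nat.lt_mul_div_succ (eta R J i) (show 0 < σ by omega)
      nlinarith
    have e3 : u * σ ≤ eta R J i := by
      rw [← hu]; exact Nat.div_mul_le_self _ _
    rw [mem_fl]
    refine ⟨hiJ, h81_PV_mono (by omega) hm1, h81_QH_anti e3 (h81_eta_spec hn), hin⟩
  refine (card_le_card hsub).trans (key.trans ?_)
  have : (u + 1) * σ = u * σ + σ := by ring
  rw [this]
  omega

end Wn
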